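import Pool.Agent.helper56.P3.Defs2

/-!
# P3, module Le (RealCycle): the algebraic identity, real cycles, the adjoint sequence
-/

namespace Pool.Agent.helper56.P3

open Finset Pool.Agent.helper56.Per

section Aux

/-- sums over a period are shift invariant -/
theorem Le_shift {F : Type*} [AddCommGroup F] {p : ℕ} {f : ℕ → F} (hf : f p = f 0) :
    ∑ j ∈ range p, f (j + 1) = ∑ j ∈ range p, f j := by
  have h := Finset.sum_range_succ f p
  have h' := Finset.sum_range_succ' f p
  rw [h] at h'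
  rw [hf] at h'
  exact (add_right_cancel h').symm

theorem Le_shift_prod {F : Type*} [Field F] {p : ℕ} {f : ℕ → F} (hf : f p = f 0)
    (h0 : f 0 ≠ 0) : ∏ j ∈ range p, f (j + 1) = ∏ j ∈ range p, f j := by
  have h := Finset.prod_range_succ f p
  have h' := Finset.prod_range_succ' f p
  rw [h] at h'
  rw [hf] at h'
  exact (mul_right_cancel₀ h0 h').symm

/-- periodic solutions of affine recursions -/
theorem Le_affine {F : Type*} [Field F] {p : ℕ} {α β : ℕ → F}
    (hα : ∀ j, α (j + p) = α j) (hβ : ∀ j, β (j + p) = β j)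
    (h1 : ∏ j ∈ range p, α j ≠ 1) :
    ∃ e : ℕ → F, (∀ j, e (j + p) = e j) ∧ ∀ j, e (j + 1) = α j * e j + β j := by
  let E : F → ℕ → F := fun u j => Nat.rec u (fun i t => α i * t + β i) j
  have E0 : ∀ u, E u 0 = u := fun u => rfl
  have Es : ∀ u j, E u (j + 1) = α j * E u j + β j := fun u j => rfl
  have Ea : ∀ u j, E u j = (∏ i ∈ range j, α i) * u + E 0 j := by
    intro u j
    induction j with
    | zero => simp [E0]
    | succ j ih =>
      rw [Es, Es, ih, prod_range_succ]
      ring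
  set A := ∏ i ∈ range p, α i with hA
  have h1' : (1 - A) ≠ 0 := sub_ne_zero.2 (Ne.symm h1)
  refine ⟨E (E 0 p / (1 - A)), ?_, fun j => Es _ j⟩
  set u := E 0 p / (1 - A) with hu
  have hu' : A * u + E 0 p = u := by
    rw [hu]; field_simp; ring
  intro j
  induction j with
  | zero => rw [zero_add, Ea u p, E0]; exact hu'
  | succ j ih =>
    rw [show j + 1 + p = (j + p) + 1 by ring, Es, Es, ih, hα, hβ]

/-- the maximum of a periodic sequence -/
theorem Le_max {p : ℕ} (hp : 0 < p) {f : ℕ → ℝ} (hf : ∀ j, f (j + p) = f j) :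
    ∃ j0, ∀ j, f j ≤ f (j0 + 1) := by
  obtain ⟨j1, hj1, hmax⟩ := Finset.exists_max_image (range p) f ⟨0, mem_range.2 hp⟩
  have hm : ∀ j, f j = f (j % p) := by
    intro j
    have key : ∀ t i, f (i + p * t) = f i := by
      intro t
      induction t with
      | zero => intro i; simp
      | succ t ih => intro i; rw [Nat.mul_succ, ← add_assoc, hf, ih]
    conv_lhs => rw [← Nat.mod_add_div j p]
    exact key _ _
  refine ⟨j1 + (p - 1), fun j => ?_⟩
  have h2 : j1 + (p - 1) + 1 = j1 + p := by omega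
  rw [h2, hf, hm j]
  exact hmax _ (mem_range.2 (Nat.mod_lt _ hp))

end Aux

section L

variable {k K : Type*} [Field k] [Field K] [Algebra k K]
  {P : ValuationSubring K} {b c τ β S : K} {n m q : ℕ}

/-- the algebraic identity for `W_* = η + (q²-7)/3 - 1` -/
theorem L_alg [CharZero k] {p : ℕ} {x e : ℕ → k} {η : k}
    (x0 : ∀ j, x j ≠ 0) (xs : ∀ j, x (j + 1) = x j + (x j)⁻¹ - 2)
    (xp : ∀ j, x (j + p) = x j) (ep : ∀ j, e (j + p) = e j)
    (es : ∀ j, (1 + x j) ^ 2 * e (j + 1) = (x j ^ 2 - 1) * e j + 1)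
    (hη : η * (∑ j ∈ range p, (-2 * e j / x j))
      + ∑ j ∈ range p, (-2 * e (j + 1) / x (j + 1)) * hfun q (-2) (x j + (x j)⁻¹)
      + ∑ j ∈ range p, ((x j ^ 2)⁻¹ + ((q : k) ^ 2 + 2) / 3) = 0) :
    (η + ((q : k) ^ 2 - 7) / 3 - 1) * ∑ j ∈ range p, (1 - 2 * e j)
      = ((q : k) ^ 2 - 4) / 12 * (∑ j ∈ range p, (1 - 2 * e j))
        + ∑ j ∈ range p, (1 - e j) * x j ∧
    ∑ j ∈ range p, e j / x j = 2 * ∑ j ∈ range p, (1 - 2 * e j) ∧
    ∑ j ∈ range p, ((1 - e j) * x j - 1 + 2 * e j)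
      = ∑ j ∈ range p, (1 - e j) * (2 * x j - 1) ^ 2 / (4 * x j) := by
  have xp0 : x p = x 0 := by simpa using xp 0
  have ep0 : e p = e 0 := by simpa using ep 0
  -- sum of the inverses
  have s1 : ∑ j ∈ range p, (x j)⁻¹ = 2 * p := by
    have h := Le_shift (p := p) (f := x) xp0
    have h2 : ∑ j ∈ range p, x (j + 1)
        = ∑ j ∈ range p, x j + ∑ j ∈ range p, (x j)⁻¹ - 2 * p := by
      rw [sum_congr rfl (fun j _ => xs j), sum_sub_distrib, sum_add_distrib, sum_const,
        card_range, nsmul_eq_mul]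
      ring
    rw [h2] at h
    linear_combination h
  have s2 : ∑ j ∈ range p, (x j ^ 2)⁻¹ = 4 * ∑ j ∈ range p, x j + 2 * p := by
    have h := Le_shift (p := p) (f := fun j => x j ^ 2) (by simp only [xp0])
    have h2 : ∑ j ∈ range p, x (j + 1) ^ 2
        = ∑ j ∈ range p, x j ^ 2 + ∑ j ∈ range p, (x j ^ 2)⁻¹ + 6 * p
          - 4 * ∑ j ∈ range p, x j - 4 * ∑ j ∈ range p, (x j)⁻¹ := by
      have h3 : ∀ j ∈ range p, x (j + 1) ^ 2
          = x j ^ 2 + (x j ^ 2)⁻¹ + 6 - 4 * x j - 4 * (x j)⁻¹ := by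
        intro j _
        have := x0 j
        rw [xs j]
        field_simp
        ring
      rw [sum_congr rfl h3, sum_sub_distrib, sum_sub_distrib, sum_add_distrib, sum_add_distrib,
        sum_const, card_range, nsmul_eq_mul, mul_sum, mul_sum]
      ring
    rw [h2, s1] at h
    linear_combination h
  -- the adjoint sum
  have s3 : ∑ j ∈ range p, e j / x j = 2 * p - 4 * ∑ j ∈ range p, e j := by
    have h := Le_shift (p := p) (f := fun j => (x j + 4) * e j) (by simp only [xp0, ep0])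
    have h2 : ∑ j ∈ range p, (x (j + 1) + 4) * e (j + 1)
        = ∑ j ∈ range p, x j * e j - ∑ j ∈ range p, e j / x j + ∑ j ∈ range p, (x j)⁻¹ := by
      have h3 : ∀ j ∈ range p, (x (j + 1) + 4) * e (j + 1) = x j * e j - e j / x j + (x j)⁻¹ := by
        intro j _
        have hx := x0 j
        have h4 : (x (j + 1) + 4) * e (j + 1) = (1 + x j) ^ 2 * e (j + 1) / x j := by
          rw [xs j]; field_simp; ring
        rw [h4, es j]
        field_simp
      rw [sum_congr rfl h3, sum_add_distrib, sum_sub_distrib]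
    have h5 : ∑ j ∈ range p, (x j + 4) * e j
        = ∑ j ∈ range p, x j * e j + 4 * ∑ j ∈ range p, e j := by
      rw [mul_sum, ← sum_add_distrib]
      exact sum_congr rfl (fun j _ => by ring)
    rw [h2, h5, s1] at h
    linear_combination -h
  have sA : ∑ j ∈ range p, (1 - 2 * e j) = p - 2 * ∑ j ∈ range p, e j := by
    rw [sum_sub_distrib, sum_const, card_range, nsmul_eq_mul, mul_sum]
    ring
  have sB : ∑ j ∈ range p, (1 - e j) * x j
      = ∑ j ∈ range p, x j - ∑ j ∈ range p, x j * e j := by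
    rw [← sum_sub_distrib]
    exact sum_congr rfl (fun j _ => by ring)
  refine ⟨?_, ?_, ?_⟩
  · have g1 : ∑ j ∈ range p, (-2 * e j / x j) = -2 * ∑ j ∈ range p, e j / x j := by
      rw [mul_sum]
      exact sum_congr rfl (fun j _ => by ring)
    have g2 : ∑ j ∈ range p, (-2 * e (j + 1) / x (j + 1)) * hfun q (-2) (x j + (x j)⁻¹)
        = ∑ j ∈ range p, (-2 * e j / x j) * hfun q (-2) (x j + 2) := by
      rw [← Le_shift (p := p) (f := fun j => (-2 * e j / x j) * hfun q (-2) (x j + 2))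
        (by simp only [xp0, ep0])]
      refine sum_congr rfl (fun j _ => ?_)
      have : x j + (x j)⁻¹ = x (j + 1) + 2 := by rw [xs j]; ring
      rw [this]
    have g3 : ∑ j ∈ range p, (-2 * e j / x j) * hfun q (-2) (x j + 2)
        = -4 * ∑ j ∈ range p, x j * e j - 2 * (4 + ((q : k) ^ 2 - 4) / 3) * ∑ j ∈ range p, e j
          - 2 * (((q : k) ^ 2 - 7) / 3) * ∑ j ∈ range p, e j / x j := by
      rw [mul_sum, mul_sum, mul_sum, ← sum_sub_distrib, ← sum_sub_distrib]
      refine sum_congr rfl (fun j _ => ?_)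
      have hx := x0 j
      rw [hfun]
      field_simp
      ring
    have g4 : ∑ j ∈ range p, ((x j ^ 2)⁻¹ + ((q : k) ^ 2 + 2) / 3)
        = 4 * ∑ j ∈ range p, x j + 2 * p + p * (((q : k) ^ 2 + 2) / 3) := by
      rw [sum_add_distrib, s2, sum_const, card_range, nsmul_eq_mul]
    rw [g1, g2, g3, g4, s3] at hη
    rw [sA, sB]
    linear_combination (-1 / 4 : k) * hη
  · rw [s3, sA]; ring
  · have h1 : ∑ j ∈ range p, ((1 - e j) * x j - 1 + 2 * e j)
        = ∑ j ∈ range p, x j - ∑ j ∈ range p, x j * e j - p + 2 * ∑ j ∈ range p, e j := by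
      rw [mul_sum, ← sum_sub_distrib]
      have : (p : k) = ∑ j ∈ range p, (1 : k) := by
        rw [sum_const, card_range, nsmul_eq_mul, mul_one]
      rw [this, ← sum_sub_distrib, ← sum_add_distrib]
      exact sum_congr rfl (fun j _ => by ring)
    have h2 : ∑ j ∈ range p, (1 - e j) * (2 * x j - 1) ^ 2 / (4 * x j)
        = ∑ j ∈ range p, x j - ∑ j ∈ range p, x j * e j - p + ∑ j ∈ range p, e j
          + (1 / 4) * ∑ j ∈ range p, (x j)⁻¹ - (1 / 4) * ∑ j ∈ range p, e j / x j := by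
      rw [mul_sum, mul_sum, ← sum_sub_distrib]
      have : (p : k) = ∑ j ∈ range p, (1 : k) := by
        rw [sum_const, card_range, nsmul_eq_mul, mul_one]
      rw [this, ← sum_sub_distrib, ← sum_add_distrib, ← sum_add_distrib, ← sum_sub_distrib]
      refine sum_congr rfl (fun j _ => ?_)
      have hx := x0 j
      field_simp
      ring
    rw [h1, h2, s1, s3]
    ring

theorem real_cycle {x : ℕ → ℂ} {p : ℕ} (hp : 0 < p) (x0 : ∀ j, x j ≠ 0)
    (xs : ∀ j, x (j + 1) = x j + (x j)⁻¹ - 2) (xp : ∀ j, x (j + p) = x j) (j : ℕ) :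
    ∃ r : ℝ, 0 < r ∧ x j = r := by
  obtain ⟨z0, hz0⟩ : ∃ z0 : ℂ, z0 ^ 2 = x j := IsAlgClosed.exists_pow_nat_eq (x j) two_pos
  let z : ℕ → ℂ := fun i => Nat.rec z0 (fun _ t => t - t⁻¹) i
  have z0' : z 0 = z0 := rfl
  have zs : ∀ i, z (i + 1) = z i - (z i)⁻¹ := fun i => rfl
  have zx : ∀ i, z i ^ 2 = x (j + i) := by
    intro i
    induction i with
    | zero => rw [z0', hz0, add_zero]
    | succ i ih =>
      have hxi := x0 (j + i)
      have hzi : z i ≠ 0 := by
        intro h
        rw [h] at ih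
        exact hxi (by rw [← ih]; simp)
      rw [zs, ← add_assoc, xs, ← ih]
      field_simp
      ring
  have hz : ∀ i, z i ≠ 0 := by
    intro i h
    have := zx i
    rw [h] at this
    exact x0 (j + i) (by rw [← this]; simp)
  have him : ∀ i, (z (i + 1)).im = (z i).im * (1 + (Complex.normSq (z i))⁻¹) := by
    intro i
    rw [zs, Complex.sub_im, Complex.inv_im]
    have : Complex.normSq (z i) ≠ 0 := (Complex.normSq_pos.2 (hz i)).ne'
    field_simp
    ring
  have hmono : ∀ i, |(z i).im| ≤ |(z (i + 1)).im| := by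
    intro i
    rw [him, abs_mul]
    have h1 : (0 : ℝ) < (Complex.normSq (z i))⁻¹ := inv_pos.2 (Complex.normSq_pos.2 (hz i))
    rw [abs_of_pos (by linarith : (0 : ℝ) < 1 + (Complex.normSq (z i))⁻¹)]
    nlinarith [abs_nonneg (z i).im]
  have hmono' : ∀ i, |(z 1).im| ≤ |(z (i + 1)).im| := by
    intro i
    induction i with
    | zero => exact le_refl _
    | succ i ih => exact ih.trans (hmono (i + 1))
  have hend : |(z p).im| = |(z 0).im| := by
    have h1 : z p ^ 2 = z 0 ^ 2 := by rw [zx, zx, xp, add_zero]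
    rcases sq_eq_sq_iff_eq_or_eq_neg.1 h1 with h | h
    · rw [h]
    · rw [h, Complex.neg_im, abs_neg]
  have him0 : (z 0).im = 0 := by
    by_contra hne
    have h1 : |(z 0).im| < |(z 1).im| := by
      rw [show (z 1).im = (z (0 + 1)).im from rfl, him 0, abs_mul]
      have h1 : (0 : ℝ) < (Complex.normSq (z 0))⁻¹ := inv_pos.2 (Complex.normSq_pos.2 (hz 0))
      rw [abs_of_pos (by linarith : (0 : ℝ) < 1 + (Complex.normSq (z 0))⁻¹)]
      have := abs_pos.2 hne
      nlinarith
    have h2 : |(z 1).im| ≤ |(z p).im| := by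
      have := hmono' (p - 1)
      rwa [show p - 1 + 1 = p by omega] at this
    rw [hend] at h2
    exact absurd h1 (not_lt.2 h2)
  have hz0r : z0 = ((z0.re : ℝ) : ℂ) := by
    apply Complex.ext
    · simp
    · simpa [z0'] using him0
  refine ⟨z0.re ^ 2, ?_, ?_⟩
  · have : z0.re ≠ 0 := by
      intro h
      rw [h] at hz0r
      exact hz 0 (by rw [z0', hz0r]; simp)
    positivity
  · rw [← hz0]
    conv_lhs => rw [hz0r]
    push_cast
    rfl

/-- existence of the adjoint sequence, and `λ ≠ 1` -/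
theorem e_exists [CharZero k] [Algebra.IsAlgebraic ℚ k] {x : ℕ → k} {p : ℕ} (hp : 0 < p)
    (x0 : ∀ j, x j ≠ 0) (x1 : ∀ j, x j ^ 2 ≠ 1) (xs : ∀ j, x (j + 1) = x j + (x j)⁻¹ - 2)
    (xp : ∀ j, x (j + p) = x j) :
    (∃ e : ℕ → k, (∀ j, e (j + p) = e j) ∧
      ∀ j, (1 + x j) ^ 2 * e (j + 1) = (x j ^ 2 - 1) * e j + 1) ∧
    (∏ j ∈ range p, (1 - (x j ^ 2)⁻¹)) ≠ 1 := by
  have hp1 : ∀ j, x j + 1 ≠ 0 := by
    intro j h
    apply x1 j
    linear_combination (x j - 1) * h
  have hm1 : ∀ j, x j - 1 ≠ 0 := by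
    intro j h
    apply x1 j
    linear_combination (x j + 1) * h
  -- the product of the slopes is not one
  have hprod : ∏ j ∈ range p, ((x j - 1) / (x j + 1)) ≠ 1 := by
    let σ : k →+* ℂ := (IsAlgClosed.lift (R := ℚ) (S := k) (M := ℂ)).toRingHom
    have hreal : ∀ j, ∃ r : ℝ, 0 < r ∧ σ (x j) = r := by
      intro j
      refine real_cycle (x := fun j => σ (x j)) hp (fun j => (map_ne_zero σ).2 (x0 j)) ?_ ?_ j
      · intro j
        simp only [xs j, map_sub, map_add, map_inv₀, map_ofNat]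
      · intro j
        simp only [xp j]
    intro h1
    have h2 : ∏ j ∈ range p, ‖(σ (x j) - 1) / (σ (x j) + 1)‖ = 1 := by
      have h3 : σ (∏ j ∈ range p, ((x j - 1) / (x j + 1))) = 1 := by rw [h1, map_one]
      rw [map_prod] at h3
      have h4 : ‖∏ j ∈ range p, σ ((x j - 1) / (x j + 1))‖ = 1 := by rw [h3, norm_one]
      rw [norm_prod] at h4
      rw [← h4]
      refine prod_congr rfl (fun j _ => ?_)
      rw [map_div₀, map_sub, map_add, map_one]
    have hlt : ∀ j, ‖(σ (x j) - 1) / (σ (x j) + 1)‖ < 1 := by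
      intro j
      obtain ⟨r, hr, hxr⟩ := hreal j
      rw [hxr, norm_div]
      have e1 : ((r : ℂ) - 1) = ((r - 1 : ℝ) : ℂ) := by push_cast; ring
      have e2 : ((r : ℂ) + 1) = ((r + 1 : ℝ) : ℂ) := by push_cast; ring
      rw [e1, e2, Complex.norm_real, Complex.norm_real, Real.norm_eq_abs, Real.norm_eq_abs,
        abs_of_pos (by linarith : (0 : ℝ) < r + 1), div_lt_one (by linarith), abs_lt]
      constructor <;> linarith
    have h5 : ∏ j ∈ range p, ‖(σ (x j) - 1) / (σ (x j) + 1)‖ < 1 := by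
      obtain ⟨p', rfl⟩ : ∃ p', p = p' + 1 := ⟨p - 1, by omega⟩
      rw [prod_range_succ]
      have h6 : ∏ j ∈ range p', ‖(σ (x j) - 1) / (σ (x j) + 1)‖ ≤ 1 :=
        prod_le_one (fun j _ => norm_nonneg _) (fun j _ => (hlt j).le)
      have h7 : (0 : ℝ) ≤ ∏ j ∈ range p', ‖(σ (x j) - 1) / (σ (x j) + 1)‖ :=
        prod_nonneg (fun j _ => norm_nonneg _)
      have h8 := hlt p'
      have h9 := norm_nonneg ((σ (x p') - 1) / (σ (x p') + 1))
      nlinarith
    linarith
  constructor
  · obtain ⟨e, he1, he2⟩ := Le_affine (p := p) (α := fun j => (x j - 1) / (x j + 1))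
      (β := fun j => ((1 + x j) ^ 2)⁻¹) (fun j => by simp only [xp j])
      (fun j => by simp only [xp j]) hprod
    refine ⟨e, he1, fun j => ?_⟩
    rw [he2 j]
    have h1 := hp1 j
    have h2 : 1 + x j ≠ 0 := by rwa [add_comm]
    field_simp
    ring
  · intro hL
    apply hprod
    have hsq : ∏ j ∈ range p, (x j) ^ 2 = ∏ j ∈ range p, (x j - 1) ^ 2 := by
      have h := Le_shift_prod (p := p) (f := x) (by simpa using xp 0) (x0 0)
      have h2 : ∏ j ∈ range p, (x (j + 1) * x j) = ∏ j ∈ range p, (x j - 1) ^ 2 := by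
        refine prod_congr rfl (fun j _ => ?_)
        have := x0 j
        rw [xs j]
        field_simp
        ring
      rw [← h2, prod_mul_distrib, h, ← prod_mul_distrib]
      exact prod_congr rfl (fun j _ => by ring)
    have hL2 : ∏ j ∈ range p, (1 - (x j ^ 2)⁻¹)
        = (∏ j ∈ range p, ((x j - 1) * (x j + 1))) / ∏ j ∈ range p, (x j) ^ 2 := by
      rw [← prod_div_distrib]
      refine prod_congr rfl (fun j _ => ?_)
      have := x0 j
      field_simp
      ring
    rw [hL2, hsq, ← prod_div_distrib] at hL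
    have h3 : (∏ j ∈ range p, ((x j - 1) / (x j + 1)))⁻¹ = 1 := by
      rw [← prod_inv_distrib]
      refine Eq.trans (prod_congr rfl (fun j _ => ?_)) hL
      have h1 := hm1 j
      have h2 := hp1 j
      field_simp
    rw [← inv_inv (∏ j ∈ range p, ((x j - 1) / (x j + 1))), h3, inv_one]

theorem e_bounds {y e : ℕ → ℂ} {p : ℕ} (hp : 0 < p) (hy : ∀ j, ∃ r : ℝ, 0 < r ∧ y j = r)
    (yp : ∀ j, y (j + p) = y j) (ep : ∀ j, e (j + p) = e j)
    (es : ∀ j, (1 + y j) ^ 2 * e (j + 1) = (y j ^ 2 - 1) * e j + 1) (j : ℕ) :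
    ∃ r : ℝ, 0 < r ∧ r < 1 ∧ e j = r := by
  choose r hr hyr using hy
  -- the recursion in normal form
  have es' : ∀ j, e (j + 1)
      = (((r j - 1) / (r j + 1) : ℝ) : ℂ) * e j + (((1 / (1 + r j)) ^ 2 : ℝ) : ℂ) := by
    intro j
    have h := es j
    rw [hyr j] at h
    have h1 : (r j : ℂ) + 1 ≠ 0 := by
      have : ((r j + 1 : ℝ) : ℂ) ≠ 0 := Complex.ofReal_ne_zero.2 (by linarith [hr j])
      push_cast at this
      exact this
    have h2 : (1 : ℂ) + (r j : ℂ) ≠ 0 := by rwa [add_comm]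
    push_cast
    have h3 : e (j + 1) = (((r j : ℂ) ^ 2 - 1) * e j + 1) / (1 + (r j : ℂ)) ^ 2 := by
      rw [← h]; field_simp
    rw [h3]
    field_simp
    ring
  -- imaginary parts
  have him : ∀ j, (e (j + 1)).im = (r j - 1) / (r j + 1) * (e j).im := by
    intro j
    rw [es' j, Complex.add_im, Complex.im_ofReal_mul, Complex.ofReal_im, add_zero]
  have hab : ∀ j, |(r j - 1) / (r j + 1)| < 1 := by
    intro j
    have := hr j
    rw [abs_div, abs_of_pos (by linarith : (0 : ℝ) < r j + 1), div_lt_one (by linarith), abs_lt]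
    constructor <;> linarith
  have him0 : ∀ j, (e j).im = 0 := by
    obtain ⟨j0, hj0⟩ := Le_max hp (f := fun j => |(e j).im|) (fun j => by simp only [ep j])
    have h1 : |(e (j0 + 1)).im| ≤ 0 := by
      by_contra hne
      push Not at hne
      have h2 := hj0 j0
      have h3 := him j0
      rw [h3, abs_mul] at hne h2
      have h4 := hab j0
      have h5 := abs_nonneg ((r j0 - 1) / (r j0 + 1))
      have h6 := abs_nonneg (e j0).im
      rcases h6.eq_or_lt with h7 | h7
      · rw [← h7, mul_zero] at hne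
        exact lt_irrefl _ hne
      · nlinarith
    intro j
    have h2 := (hj0 j).trans h1
    exact abs_eq_zero.1 (le_antisymm h2 (abs_nonneg _))
  -- the real parts
  have hre : ∀ j, (e (j + 1)).re - 1 / 2
      = (r j - 1) / (r j + 1) * ((e j).re - 1 / 2) - r j / (1 + r j) ^ 2 := by
    intro j
    have := hr j
    have h1 : r j + 1 ≠ 0 := by linarith
    have h2 : 1 + r j ≠ 0 := by linarith
    rw [es' j, Complex.add_re, Complex.re_ofReal_mul, Complex.ofReal_re]
    field_simp
    ring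
  have hbd : ∀ j, |(e j).re - 1 / 2| < 1 / 2 := by
    obtain ⟨j0, hj0⟩ := Le_max hp (f := fun j => |(e j).re - 1 / 2|)
      (fun j => by simp only [ep j])
    intro j
    refine lt_of_le_of_lt (hj0 j) ?_
    have h2 := hj0 j0
    set M := |(e (j0 + 1)).re - 1 / 2| with hM
    by_contra hge
    push Not at hge
    have h3 : M ≤ |(r j0 - 1) / (r j0 + 1)| * M + r j0 / (1 + r j0) ^ 2 := by
      have hpos : 0 ≤ r j0 / (1 + r j0) ^ 2 := by have := hr j0; positivity
      calc M = |(r j0 - 1) / (r j0 + 1) * ((e j0).re - 1 / 2) - r j0 / (1 + r j0) ^ 2| := by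
            rw [hM, hre j0]
        _ ≤ |(r j0 - 1) / (r j0 + 1) * ((e j0).re - 1 / 2)| + |r j0 / (1 + r j0) ^ 2| :=
            abs_sub _ _
        _ = |(r j0 - 1) / (r j0 + 1)| * |(e j0).re - 1 / 2| + r j0 / (1 + r j0) ^ 2 := by
            rw [abs_mul, abs_of_nonneg hpos]
        _ ≤ _ := by
            have := mul_le_mul_of_nonneg_left h2 (abs_nonneg ((r j0 - 1) / (r j0 + 1)))
            linarith
    have hr0 := hr j0
    rcases le_total 1 (r j0) with h4 | h4
    · rw [abs_of_nonneg (by apply div_nonneg <;> linarith)] at h3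
      have h5 : M * (1 + r j0) ^ 2 ≤ (r j0 - 1) * (r j0 + 1) * M + r j0 := by
        have h6 : (r j0 - 1) / (r j0 + 1) * M + r j0 / (1 + r j0) ^ 2
            = ((r j0 - 1) * (r j0 + 1) * M + r j0) / (1 + r j0) ^ 2 := by
          have h1 : r j0 + 1 ≠ 0 := by linarith
          have h2 : 1 + r j0 ≠ 0 := by linarith
          field_simp
          ring
        rw [h6, le_div_iff₀ (by positivity)] at h3
        exact h3
      nlinarith
    · rw [abs_of_nonpos (by apply div_nonpos_of_nonpos_of_nonneg <;> linarith)] at h3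
      have h5 : M * (1 + r j0) ^ 2 ≤ (1 - r j0) * (r j0 + 1) * M + r j0 := by
        have h6 : -((r j0 - 1) / (r j0 + 1)) * M + r j0 / (1 + r j0) ^ 2
            = ((1 - r j0) * (r j0 + 1) * M + r j0) / (1 + r j0) ^ 2 := by
          have h1 : r j0 + 1 ≠ 0 := by linarith
          have h2 : 1 + r j0 ≠ 0 := by linarith
          field_simp
          ring
        rw [h6, le_div_iff₀ (by positivity)] at h3
        exact h3
      nlinarith [mul_pos hr0 hr0]
  have hb := abs_lt.1 (hbd j)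
  refine ⟨(e j).re, by linarith, by linarith, ?_⟩
  apply Complex.ext
  · simp
  · simp [him0 j]

end L

end Pool.Agent.helper56.P3
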